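import Pool.Agent.Helper50.Tm.Goals2
import Pool.Agent.Helper40.Nm.All

/-!
The norms have finite index in the one-unit valued equivariant homomorphisms.
-/

open Pool.Agent.Helper40.Nm (Lat EqHom NT tr)
open Pool.Agent.Helper50.Tm (IsU IsU1)

namespace Pool.Agent.Helper93.Tm

section Units

variable {S E : Type} [CommRing S] [Field E] [Algebra S E]

theorem isU_mul {a b : Eˣ} (ha : IsU S a) (hb : IsU S b) : IsU S (a * b) := by
  obtain ⟨s, hs⟩ := ha
  obtain ⟨t, ht⟩ := hb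
  exact ⟨s * t, by rw [Units.val_mul, hs, ht, Units.val_mul, map_mul]⟩

theorem isU_one : IsU S (1 : Eˣ) := ⟨1, by simp⟩

theorem isU_inv {a : Eˣ} (ha : IsU S a) : IsU S a⁻¹ := by
  obtain ⟨s, hs⟩ := ha
  refine ⟨s⁻¹, ?_⟩
  rw [Units.val_inv_eq_inv_val, hs]
  refine (eq_inv_of_mul_eq_one_left ?_).symm
  rw [← map_mul]
  simp

variable [IsLocalRing S]

theorem isU1_mul {a b : Eˣ} (ha : IsU1 S a) (hb : IsU1 S b) : IsU1 S (a * b) := by
  obtain ⟨s, hs0, hs⟩ := ha
  obtain ⟨t, ht0, ht⟩ := hb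
  refine ⟨s * t, ?_, by rw [Units.val_mul, hs, ht, map_mul]⟩
  have h : s * t - 1 = s * (t - 1) + (s - 1) := by ring
  rw [h]
  exact Ideal.add_mem _ (Ideal.mul_mem_left _ _ ht0) hs0

theorem isU1_one : IsU1 S (1 : Eˣ) := ⟨1, by simp, by simp⟩

theorem isU1_inv {a : Eˣ} (ha : IsU1 S a) : IsU1 S a⁻¹ := by
  obtain ⟨s, hs0, hs⟩ := ha
  have hu : IsUnit s := by
    by_contra h
    have h1 : s ∈ IsLocalRing.maximalIdeal S := h
    have h2 : (1 : S) ∈ IsLocalRing.maximalIdeal S := by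
      have h3 : (1 : S) = s - (s - 1) := by ring
      rw [h3]
      exact Ideal.sub_mem _ h1 hs0
    exact (Ideal.ne_top_iff_one _).1 (IsLocalRing.maximalIdeal.isMaximal S).ne_top h2
  obtain ⟨u, rfl⟩ := hu
  refine ⟨((u⁻¹ : Sˣ) : S), ?_, ?_⟩
  · have h : ((u⁻¹ : Sˣ) : S) - 1 = -((u⁻¹ : Sˣ) : S) * ((u : S) - 1) := by
      have h1 : ((u⁻¹ : Sˣ) : S) * (u : S) = 1 := by simp
      linear_combination h1
    rw [h]
    exact Ideal.mul_mem_left _ _ hs0
  · rw [Units.val_inv_eq_inv_val, hs]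
    refine (eq_inv_of_mul_eq_one_left ?_).symm
    rw [← map_mul]
    simp

end Units

section Val

variable {S E : Type} [CommRing S] [IsDomain S] [IsDiscreteValuationRing S] [Field E]
  [Algebra S E] [IsFractionRing S E]

theorem exists_zpow {ϖ : S} (hϖ : Irreducible ϖ) (p : Eˣ) (hp : (p : E) = algebraMap S E ϖ)
    (e : Eˣ) : ∃ n : ℤ, IsU S (e * (p ^ n)⁻¹) := by
  obtain ⟨a, b, hb, hab⟩ := IsFractionRing.div_surjective (A := S) (e : E)
  have hb0 : b ≠ 0 := nonZeroDivisors.ne_zero hb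
  have ha0 : a ≠ 0 := by
    intro h
    rw [h, map_zero, zero_div] at hab
    exact e.ne_zero hab.symm
  obtain ⟨k, u, hu⟩ := IsDiscreteValuationRing.eq_unit_mul_pow_irreducible ha0 hϖ
  obtain ⟨l, v, hv⟩ := IsDiscreteValuationRing.eq_unit_mul_pow_irreducible hb0 hϖ
  refine ⟨(k : ℤ) - l, u * v⁻¹, ?_⟩
  have hpne : algebraMap S E ϖ ≠ 0 := by rw [← hp]; exact p.ne_zero
  have hv0 : algebraMap S E (v : S) ≠ 0 := by
    intro h
    have h1 : algebraMap S E ((v : S) * ((v⁻¹ : Sˣ) : S)) = 0 := by rw [map_mul, h, zero_mul]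
    rw [Units.mul_inv, map_one] at h1
    exact one_ne_zero h1
  have hvi : algebraMap S E ((v⁻¹ : Sˣ) : S) = (algebraMap S E (v : S))⁻¹ := by
    refine eq_inv_of_mul_eq_one_left ?_
    rw [← map_mul]
    simp
  rw [Units.val_mul, Units.val_inv_eq_inv_val, Units.val_zpow_eq_zpow_val, hp, ← hab, hu, hv,
    Units.val_mul]
  simp only [map_mul, map_pow, hvi]
  rw [zpow_sub₀ hpne, zpow_natCast, zpow_natCast]
  field_simp

end Val

section Core

variable {S M E : Type} [CommRing S] [IsDomain S] [IsDiscreteValuationRing S] [Field M] [Field E]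
  [Algebra M E] [FiniteDimensional M E] [Algebra S E] [IsFractionRing S E] {g : ℕ}

/-- the homomorphism `x ↦ p ^ (∑ n i x i)` -/
noncomputable def pw (p : Eˣ) (n : Lat g) : Multiplicative (Lat g) →* Eˣ :=
  Pool.Agent.Helper40.Nm.powHom p (∑ i, n i • (Pi.evalAddMonoidHom (fun _ : Fin g => ℤ) i))

theorem pw_apply (p : Eˣ) (n x : Lat g) :
    pw p n (Multiplicative.ofAdd x) = p ^ (∑ i, n i * x i) := by
  simp [pw, Pool.Agent.Helper40.Nm.powHom]

theorem pw_add (p : Eˣ) (n m : Lat g) : pw p (n + m) = pw p n * pw p m := by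
  apply MonoidHom.ext
  intro x
  obtain ⟨x, rfl⟩ := Multiplicative.ofAdd.surjective x
  rw [MonoidHom.mul_apply, pw_apply, pw_apply, pw_apply, ← zpow_add]
  simp [add_mul, Finset.sum_add_distrib]

theorem pw_zero (p : Eˣ) : pw p (0 : Lat g) = 1 := by
  apply MonoidHom.ext
  intro x
  obtain ⟨x, rfl⟩ := Multiplicative.ofAdd.surjective x
  rw [pw_apply]
  simp

/-- `pw` as a homomorphism -/
noncomputable def pwHom (p : Eˣ) : Multiplicative (Lat g) →* (Multiplicative (Lat g) →* Eˣ) where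
  toFun n := pw p (Multiplicative.toAdd n)
  map_one' := pw_zero p
  map_mul' _ _ := pw_add p _ _

omit [IsDomain S] [IsDiscreteValuationRing S] [IsFractionRing S E] in
/-- a homomorphism is unit valued if it is so on the basis -/
theorem isU_of_basis (f : Multiplicative (Lat g) →* Eˣ)
    (h : ∀ i, IsU S (f (Multiplicative.ofAdd (Pi.single i 1)))) (x : Multiplicative (Lat g)) :
    IsU S (f x) := by
  classical
  let V : Subgroup Eˣ :=
    { carrier := {a | IsU S a}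
      mul_mem' := isU_mul
      one_mem' := isU_one
      inv_mem' := isU_inv }
  obtain ⟨x, rfl⟩ := Multiplicative.ofAdd.surjective x
  have hx : Multiplicative.ofAdd x =
      ∏ i, (Multiplicative.ofAdd (Pi.single i (1 : ℤ) : Lat g)) ^ (x i) := by
    have h1 : x = ∑ i, x i • (Pi.single i (1 : ℤ) : Lat g) := by
      funext j
      simp [Finset.sum_apply, Pi.single_apply]
    conv_lhs => rw [h1]
    rw [ofAdd_sum]
    rfl
  rw [hx, map_prod]
  change _ ∈ V
  refine Subgroup.prod_mem _ (fun i _ => ?_)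
  rw [map_zpow]
  exact Subgroup.zpow_mem _ (h i) _

theorem exists_pw {ϖ : S} (hϖ : Irreducible ϖ) (p : Eˣ) (hp : (p : E) = algebraMap S E ϖ)
    (F : Multiplicative (Lat g) →* Eˣ) :
    ∃ n : Lat g, ∀ x, IsU S ((F / (pwHom p (Multiplicative.ofAdd n))) x) := by
  classical
  choose n hn using fun i => exists_zpow (S := S) hϖ p hp
    (F (Multiplicative.ofAdd (Pi.single i (1 : ℤ))))
  refine ⟨n, isU_of_basis _ (fun i => ?_)⟩
  have h := hn i
  have h0 : pwHom p (Multiplicative.ofAdd n) = pw p n := rfl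
  rw [MonoidHom.div_apply, h0, pw_apply, div_eq_mul_inv]
  have h1 : ∑ j, n j * (Pi.single i (1 : ℤ) : Lat g) j = n i := by
    simp [Pi.single_apply]
  rw [h1]
  exact h

end Core

theorem core_abs {P : Type} [CommGroup P] (N : P →* P) (q : ℕ) (hq : 0 < q)
    (UU VV AA : Subgroup P) (hAV : AA ≤ VV) (hNA : ∀ ψ ∈ AA, N ψ = ψ ^ q)
    (hS : ∀ ψ ∈ AA, ∃ F, N F = ψ) (hA : ∀ u ∈ UU, N u ∈ AA → ∃ f ∈ VV, N f = N u) (g : ℕ)
    (w : Multiplicative (Fin g → ℤ) →* P)
    (hw : ∀ F, ∃ n, F / w (Multiplicative.ofAdd n) ∈ UU) :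
    ∃ Fs : Finset P, (∀ c ∈ Fs, c ∈ AA) ∧ ∀ ψ ∈ AA, ∃ c ∈ Fs, ∃ f ∈ VV, ψ = c * N f := by
  classical
  let L : AddSubgroup (Fin g → ℤ) :=
    { carrier := {n | ∃ F : P, F / w (Multiplicative.ofAdd n) ∈ UU ∧ N F ∈ AA}
      zero_mem' := ⟨1, by rw [ofAdd_zero, map_one, div_one]; exact UU.one_mem, by
        rw [map_one]; exact AA.one_mem⟩
      add_mem' := by
        rintro n m ⟨F, hF, hF'⟩ ⟨G, hG, hG'⟩
        refine ⟨F * G, ?_, ?_⟩
        · rw [ofAdd_add, map_mul, mul_div_mul_comm]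
          exact UU.mul_mem hF hG
        · rw [map_mul]
          exact AA.mul_mem hF' hG'
      neg_mem' := by
        rintro n ⟨F, hF, hF'⟩
        refine ⟨F⁻¹, ?_, ?_⟩
        · rw [ofAdd_neg, map_inv, inv_div_inv, ← inv_div]
          exact UU.inv_mem hF
        · rw [map_inv]
          exact AA.inv_mem hF' }
  have hfg : (AddSubgroup.toIntSubmodule L).FG := IsNoetherian.noetherian _
  obtain ⟨s, hs⟩ := hfg
  have hsL : ∀ n : s, ∃ F : P, F / w (Multiplicative.ofAdd n.1) ∈ UU ∧ N F ∈ AA := by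
    intro n
    have h1 : (n : Fin g → ℤ) ∈ AddSubgroup.toIntSubmodule L := by
      rw [← hs]
      exact Submodule.subset_span n.2
    exact h1
  choose Fc hFc1 hFc2 using hsL
  refine ⟨Finset.univ.image (fun r : s → Fin q => ∏ n : s, (N (Fc n)) ^ ((r n : ℕ))), ?_, ?_⟩
  · intro c hc
    obtain ⟨r, -, rfl⟩ := Finset.mem_image.1 hc
    exact Subgroup.prod_mem _ (fun n _ => AA.pow_mem (hFc2 n) _)
  · intro ψ hψ
    obtain ⟨F, hF⟩ := hS ψ hψ
    obtain ⟨n, hnU⟩ := hw F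
    have hnL : n ∈ AddSubgroup.toIntSubmodule L := by
      refine ⟨F, hnU, ?_⟩
      rw [hF]
      exact hψ
    rw [← hs] at hnL
    obtain ⟨c, hc⟩ := (Submodule.mem_span_finset' ).1 hnL
    let G : P := ∏ m : s, (Fc m) ^ (c m)
    have hpwn : w (Multiplicative.ofAdd n) = ∏ m : s, (w (Multiplicative.ofAdd m.1)) ^ (c m) := by
      rw [← hc, ofAdd_sum, map_prod]
      refine Finset.prod_congr rfl (fun m _ => ?_)
      rw [ofAdd_zsmul, map_zpow]
    have hGU : G / w (Multiplicative.ofAdd n) ∈ UU := by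
      rw [hpwn, ← Finset.prod_div_distrib]
      refine Subgroup.prod_mem _ (fun m _ => ?_)
      rw [← div_zpow]
      exact UU.zpow_mem (hFc1 m) _
    have hNG : N G = ∏ m : s, (N (Fc m)) ^ (c m) := by
      rw [map_prod]
      exact Finset.prod_congr rfl (fun m _ => map_zpow _ _ _)
    have hNGA : N G ∈ AA := by
      rw [hNG]
      exact Subgroup.prod_mem _ (fun m _ => AA.zpow_mem (hFc2 m) _)
    have hu : F / G ∈ UU := by
      have h : F / G = (F / w (Multiplicative.ofAdd n)) / (G / w (Multiplicative.ofAdd n)) := by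
        rw [div_div_div_cancel_right]
      rw [h]
      exact UU.div_mem hnU hGU
    have hNu : N (F / G) ∈ AA := by
      rw [map_div, hF]
      exact AA.div_mem hψ hNGA
    obtain ⟨f, hf1, hf2⟩ := hA (F / G) hu hNu
    have hψeq : ψ = N G * N f := by
      rw [hf2, map_div, hF, mul_div_cancel]
    have hr : ∀ m : s, (c m % (q : ℤ)).toNat < q := by
      intro m
      have h1 := Int.emod_nonneg (c m) (by exact_mod_cast hq.ne' : (q : ℤ) ≠ 0)
      have h2 := Int.emod_lt_of_pos (c m) (by exact_mod_cast hq : (0 : ℤ) < q)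
      omega
    refine ⟨_, Finset.mem_image_of_mem _ (Finset.mem_univ
      (fun m : s => (⟨(c m % (q : ℤ)).toNat, hr m⟩ : Fin q))),
      (∏ m : s, (N (Fc m)) ^ (c m / (q : ℤ))) * f, ?_, ?_⟩
    · exact VV.mul_mem (Subgroup.prod_mem _ (fun m _ => VV.zpow_mem (hAV (hFc2 m)) _)) hf1
    · have h1 : N ((∏ m : s, (N (Fc m)) ^ (c m / (q : ℤ))) * f) =
          (∏ m : s, (N (Fc m)) ^ ((q : ℤ) * (c m / (q : ℤ)))) * N f := by
        rw [map_mul, map_prod]
        congr 1
        refine Finset.prod_congr rfl (fun m _ => ?_)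
        rw [map_zpow, hNA _ (hFc2 m), ← zpow_natCast, ← zpow_mul]
      rw [hψeq, hNG, h1, ← mul_assoc, ← Finset.prod_mul_distrib]
      congr 1
      refine Finset.prod_congr rfl (fun m _ => ?_)
      rw [← zpow_natCast, ← zpow_add]
      congr 1
      have h2 := Int.emod_nonneg (c m) (by exact_mod_cast hq.ne' : (q : ℤ) ≠ 0)
      have h3 : (((c m % (q : ℤ)).toNat : ℕ) : ℤ) = c m % (q : ℤ) := Int.toNat_of_nonneg h2
      change c m = (((c m % (q : ℤ)).toNat : ℕ) : ℤ) + _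
      rw [h3]
      exact (Int.emod_add_mul_ediv (c m) q).symm

theorem gARI2 (hADJ : Pool.Agent.Helper50.Tm.ADJ) : Pool.Agent.Helper50.Tm.ARI2 := by
  intro R M S E _ _ _ _ _ _ _ _ _ _ _ _ _ _ _ _ _ _ _ _ _ g act a hfin
  classical
  have hE := Pool.Agent.Helper40.Nm.extT
  have hNP : Pool.Agent.Helper40.Nm.NPRIME :=
    Helper36.Nm.nprime (Helper18.Nm.trc hE) hE Helper97.Nm.divu
  have hSURJ : Pool.Agent.Helper40.Nm.SURJ :=
    Helper32.Nm.surj (Helper53.Nm.coh2 Helper83.Nm.coh1) (Helper96.Nm.npow hNP hE) hE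
  obtain ⟨hfrac, -⟩ := hE R M S E
  have hS := hSURJ R M E g act
  have hA := hADJ R M S E g act a hfin
  obtain ⟨ϖ, hϖ⟩ := IsDiscreteValuationRing.exists_irreducible S
  have hpne : algebraMap S E ϖ ≠ 0 := by
    intro h
    exact hϖ.ne_zero ((IsFractionRing.injective S E) (by rw [h, map_zero]))
  let p : Eˣ := Units.mk0 (algebraMap S E ϖ) hpne
  have hp : (p : E) = algebraMap S E ϖ := rfl
  let Hm := Multiplicative (Lat g) →* Eˣ
  let UU : Subgroup Hm :=
    { carrier := {f | ∀ x, IsU S (f x)}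
      mul_mem' := fun ha hb x => isU_mul (ha x) (hb x)
      one_mem' := fun x => isU_one
      inv_mem' := fun ha x => isU_inv (ha x) }
  let VV : Subgroup Hm :=
    { carrier := {f | ∀ x, IsU1 S (f x)}
      mul_mem' := fun ha hb x => isU1_mul (ha x) (hb x)
      one_mem' := fun x => isU1_one
      inv_mem' := fun ha x => isU1_inv (ha x) }
  let AA : Subgroup Hm := EqHom act Eˣ ⊓ VV
  have hNA : ∀ ψ ∈ AA, (Helper32.Nm.NTHom act) ψ = ψ ^ (Fintype.card (E ≃ₐ[M] E)) := by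
    intro ψ hψ
    change NT act ψ = _
    rw [NT]
    rw [Finset.prod_congr rfl (fun γ _ => Helper32.Nm.tr_eq act γ hψ.1), Finset.prod_const,
      Finset.card_univ]
  obtain ⟨Fs, h1, h2⟩ := core_abs (P := Hm) (Helper32.Nm.NTHom act) (Fintype.card (E ≃ₐ[M] E))
    Fintype.card_pos UU VV AA inf_le_right hNA (fun ψ hψ => hS ψ hψ.1)
    (fun u hu hNu => hA u hu hNu.2) g (pwHom p) (fun F => exists_pw (S := S) hϖ p hp F)
  refine ⟨Fs, fun c hc => ⟨(h1 c hc).1, (h1 c hc).2⟩, fun ψ hψ hψ1 => ?_⟩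
  obtain ⟨c, hc, f, hf, hfe⟩ := h2 ψ ⟨hψ, hψ1⟩
  exact ⟨c, hc, f, hf, hfe⟩

end Pool.Agent.Helper93.Tm
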